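import Pool.Agent.H18.PB.Clg
import Pool.Agent.H8.KS6.Box

/-!
# Labels: definitions

A label of a family is a box in a linear frame, which may depend on the line (and on everything
else): side lengths `2 ^ (-k i)` in the coordinates `M x`. Its cost is the entropy of the box, of
the position and of the direction in the box, plus the number of digits in the box. `LKS m b`: the
cost of the best label is at most the entropy of the positions.
-/

set_option autoImplicit false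

namespace Pool.LK

open Finset Real
open Pool.Agent.H49.Ent Pool.Agent.H32.Dense Pool.STK Pool.KA Pool.KSAT Pool.K2S

variable {m J : ℕ}

/-- A label: precisions and a frame. -/
structure Lbl (F : Fam m J) (b : ℝ) where
  /-- the precisions -/
  k : F.Ω → Fin m → ℕ
  /-- the frame -/
  M : F.Ω → Fin m → Fin m → ℝ
  le : ∀ ω i, k ω i ≤ J
  bd : ∀ ω i j, |M ω i j| ≤ b
  inv : ∀ ω, ∃ B : Fin m → Fin m → ℝ, (∀ i j, |B i j| ≤ b) ∧
    ∀ i l, ∑ j, B i j * M ω j l = if i = l then 1 else 0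

/-- The value of the label. -/
noncomputable def Lbl.lab {F : Fam m J} {b : ℝ} (B : Lbl F b) (ω : F.Ω) :
    ((Fin m → ℕ) × (Fin m → Fin m → ℝ)) × ((Fin m → ℤ) × (Fin m → ℤ)) :=
  ((B.k ω, B.M ω), (flk (B.k ω) (mco (B.M ω) (F.u ω)), flk (B.k ω) (mco (B.M ω) (F.d ω))))

/-- The cost of the label. -/
noncomputable def Lbl.cost {F : Fam m J} {b : ℝ} (B : Lbl F b) : ℝ :=
  CH F.p B.lab F.Z + (∑ ω, F.p ω * ∑ i, ((J : ℝ) - B.k ω i)) * Real.log 2

/-- **The label form of `K'(m)`.** -/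
def LKS (m : ℕ) (b : ℝ) : Prop :=
  ∀ ε > 0, ∃ θ > 0, ∃ J₀ : ℕ, ∀ J ≥ J₀, ∀ F : Fam m J, F.Tm (θ * J) →
    ∃ B : Lbl F b, B.cost ≤ CH F.p (F.X J) F.W + ε * J

/-! ### The class -/

/-- The functional is at most `v`. -/
def Gle (F : Fam m J) (b a v : ℝ) : Prop :=
  ∃ B : Lbl F b, B.cost - a * CH F.p (F.X J) F.W ≤ v

/-- The functional is at least `v`. -/
def Gge (F : Fam m J) (b a v : ℝ) : Prop :=
  ∀ B : Lbl F b, v ≤ B.cost - a * CH F.p (F.X J) F.W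

/-- Upper bound `R` for the functional. -/
def UBl (m : ℕ) (b a R : ℝ) : Prop :=
  ∀ η > 0, ∃ θ > 0, ∃ J₀ : ℕ, ∀ J ≥ J₀, ∀ F : Fam m J, F.Tm (θ * J) → Gle F b a ((R + η) * J)

/-- The value `R` of the functional is attained. -/
def LBl (m : ℕ) (b a R : ℝ) : Prop :=
  ∀ η > 0, ∀ θ > 0, ∀ J₀ : ℕ, ∃ J ≥ J₀, ∃ F : Fam m J, F.Tm (θ * J) ∧ Gge F b a ((R - η) * J)

/-- `τ`-maximal families. -/
def Mxl (F : Fam m J) (b a R τ : ℝ) : Prop := F.Tm (τ * J) ∧ Gge F b a ((R - τ) * J)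

/-- Uniformly maximal families: all restrictions to events are maximal, the loss is the
logarithm of the probability. -/
def Uml (F : Fam m J) (b a R τ : ℝ) : Prop :=
  ∀ (A : F.Ω → Prop) (h : IsLaw (Pool.Agent.H49.Ent.cond F.p A True)),
    Gge (F.res A True h) b a ((R - τ) * J + Real.log (Pe F.p A))

theorem Gge.mono {F : Fam m J} {b a v v' : ℝ} (h : v' ≤ v) (hF : Gge F b a v) : Gge F b a v' :=
  fun B => h.trans (hF B)

theorem Gle.mono {F : Fam m J} {b a v v' : ℝ} (h : v ≤ v') (hF : Gle F b a v) : Gle F b a v' := by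
  obtain ⟨B, hB⟩ := hF
  exact ⟨B, hB.trans h⟩

theorem Gge.of_not {F : Fam m J} {b a v : ℝ} (h : ¬ Gle F b a v) : Gge F b a v := by
  intro B
  by_contra hcon
  push Not at hcon
  exact h ⟨B, hcon.le⟩

/-- The class of the uniformly maximal families. -/
def Fcl (m : ℕ) (b a R : ℝ) : Pool.PB.FCl m where
  T τ J F := F.Tr ∧ F.Tm (τ * J) ∧ Uml F b a R τ ∧ F.Rb (τ * J)
  mono := by
    intro τ τ' J F h ⟨h1, h2, h3, h4⟩
    have hJ : τ * (J : ℝ) ≤ τ' * J := mul_le_mul_of_nonneg_right h (Nat.cast_nonneg J)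
    refine ⟨h1, ?_, fun A hA => (h3 A hA).mono ?_, ?_⟩
    · unfold Fam.Tm at h2 ⊢
      linarith
    · nlinarith
    · obtain ⟨⟨a1, b1⟩, ⟨a2, b2⟩, ⟨a3, b3⟩, ⟨a4, b4⟩, ⟨a5, b5⟩⟩ := h4
      exact ⟨⟨a1, Pool.K2S.rg_mono hJ b1⟩, ⟨a2, Pool.K2S.rg_mono hJ b2⟩,
        ⟨a3, Pool.K2S.rg_mono hJ b3⟩, ⟨a4, Pool.K2S.rg_mono hJ b4⟩, ⟨a5, Pool.K2S.rg_mono hJ b5⟩⟩
  tr h := h.1
  tm h := h.2.1
  rb h := h.2.2.2

end Pool.LK
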