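import Pool.Agent.H13.LK.Defs
import Pool.Agent.H44.K2.END2

/-!
# Labels: statements of the modules
-/

set_option autoImplicit false

namespace Pool.LK

open Finset Real
open Pool.Agent.H49.Ent Pool.Agent.H32.Dense Pool.STK Pool.KA Pool.KSAT Pool.K2S

/-! ### Constructions of labels -/

/-- **(TUBL)** From the tubes. `k' = k + q`, the same frame. -/
def TUBLStmt : Prop :=
  ∀ (m : ℕ) (b : ℝ), ∃ C : ℝ, 0 ≤ C ∧ ∀ (J q : ℕ) (hq : q ≤ J) (F : Fam m J)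
    (B : Lbl (F.tub q hq) b), ∃ B' : Lbl F b, B'.cost ≤ CH F.p (F.L q) F.Z + B.cost + C

/-- **(TRCL)** From the truncation. The same label. -/
def TRCLStmt : Prop :=
  ∀ (m : ℕ) (b : ℝ) (J x : ℕ) (hx : x ≤ J) (F : Fam m J) (B : Lbl (F.trc x hx) b),
    ∃ B' : Lbl F b, B'.cost ≤ B.cost + m * (((J : ℝ) - x) * Real.log 2)

/-- **(WINL)** From the windows. The same precisions and frame. -/
def WINLStmt : Prop :=
  ∀ (m : ℕ) (b : ℝ), ∃ C : ℝ, 0 ≤ C ∧ ∀ (J g : ℕ), g ≤ J → ∀ (F : Fam m J)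
    (B : Lbl (F.win g) b), ∃ B' : Lbl F b, B'.cost ≤ CH F.p (F.c g) F.Z + B.cost + C * (g + 1)

/-- **(CNDL)** From additional side information. -/
def CNDLStmt : Prop :=
  ∀ (m : ℕ) (b : ℝ) (J : ℕ) (F : Fam m J) (κ : Type) (z : F.Ω → κ) (B : Lbl (F.cnd z) b),
    ∃ B' : Lbl F b, B'.cost ≤ CH F.p z F.Z + B.cost

open Classical in
/-- **(MIXL)** From the pieces of a partition. -/
def MIXLStmt : Prop :=
  ∀ (m : ℕ) (b : ℝ) (J : ℕ) (F : Fam m J) (K : Type) [Fintype K] (c : F.Ω → K)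
    (h : ∀ k, law F.p c k ≠ 0 → IsLaw (Pool.Agent.H49.Ent.cond F.p c k))
    (B : ∀ k (hk : law F.p c k ≠ 0), Lbl (F.res c k (h k hk)) b),
    ∃ B' : Lbl F b, B'.cost ≤ CH F.p c F.Z +
      ∑ k, law F.p c k * (if hk : law F.p c k ≠ 0 then (B k hk).cost else 0)

/-- **(TRVL)** A rough upper bound for all families (no hypothesis on the time). -/
def TRVLStmt : Prop :=
  ∀ (m : ℕ) (b : ℝ), 1 ≤ b → ∃ C : ℝ, 0 ≤ C ∧ ∀ (J : ℕ) (F : Fam m J) (a : ℝ), 1 ≤ a →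
    Gle F b a (m * (J * Real.log 2) +
      (CH F.p F.T F.Z - CH F.p F.T (fun ω => (F.l ω, F.Z ω))) + C)

/-! ### The class -/

/-- **(UPR)** Restriction to an event of fixed probability. -/
def UPRStmt : Prop :=
  ∀ (m : ℕ) (b a R : ℝ), 1 ≤ b → 1 ≤ a → 0 < R → UBl m b a R → ∀ ρ > 0, ∀ τ > 0,
    ∃ τ₁ > 0, ∃ J₁ : ℕ, ∀ J ≥ J₁, ∀ F : Fam m J, Mxl F b a R τ₁ →
      ∀ A : F.Ω → Prop, ρ ≤ Pe F.p A →
        ∃ h : IsLaw (Pool.Agent.H49.Ent.cond F.p A True), Mxl (F.res A True h) b a R τ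

/-- **(UMX)** A large part of a maximal family is uniformly maximal. -/
def UMXStmt : Prop :=
  ∀ (m : ℕ) (b a R : ℝ), 1 ≤ b → 1 ≤ a → 0 < R → UBl m b a R → ∀ τ > 0,
    ∃ τ₁ > 0, ∃ J₁ : ℕ, ∀ J ≥ J₁, ∀ F : Fam m J, Mxl F b a R τ₁ →
      ∃ (A : F.Ω → Prop) (h : IsLaw (Pool.Agent.H49.Ent.cond F.p A True)),
        1 / 4 ≤ Pe F.p A ∧ Uml (F.res A True h) b a R τ ∧ Mxl (F.res A True h) b a R τ

/-- **(AEXL)** Existence of the class. -/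
def AEXLStmt : Prop :=
  ∀ (m : ℕ) (b : ℝ), 1 ≤ b → ¬ LKS m b → ∃ a₀ : ℝ, 1 < a₀ ∧ ∀ a : ℝ, 1 < a → a ≤ a₀ →
    ∃ R : ℝ, 0 < R ∧ R ≤ m * Real.log 2 ∧ UBl m b a R ∧ LBl m b a R

/-- **(REXL)** The class is not empty. -/
def REXLStmt : Prop :=
  ∀ (m : ℕ) (b a R : ℝ), 1 ≤ b → 1 < a → 0 < R → UBl m b a R → LBl m b a R → ∀ τ > 0,
    ∀ J₀ : ℕ, ∃ J ≥ J₀, ∃ F : Fam m J, (Fcl m b a R).T τ J F

/-! ### The engine -/

/-- The gateways of the engine. -/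
structure GW {m : ℕ} (S : Pool.PB.FCl m) (a R : ℝ) : Prop where
  tube : ∀ η > 0, ∃ τ > 0, ∃ J₁ : ℕ, ∀ J ≥ J₁, ∀ (F : Fam m J) (A : F.Ω → Prop), S.St τ F A →
    ∀ q ≤ J, R * q ≤ a * CH (Pool.Agent.H49.Ent.cond F.p A True) (F.D q)
      (fun ω => (F.X J ω, F.W ω)) + η * J
  tail : ∀ η > 0, ∃ τ > 0, ∃ J₁ : ℕ, ∀ J ≥ J₁, ∀ (F : Fam m J) (A : F.Ω → Prop), S.St τ F A →
    ∀ x ≤ J, a * CH (Pool.Agent.H49.Ent.cond F.p A True) (F.X J)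
      (fun ω => (F.X x ω, F.W ω)) ≤ (m * Real.log 2 - R) * ((J : ℝ) - x) + η * J

/-- **(GWL)** The class of labels has the gateways. From (TUBL), (TRCL). -/
def GWLStmt : Prop :=
  ∀ (m : ℕ) (b a R : ℝ), 1 ≤ b → 1 ≤ a → 0 < R → UBl m b a R → GW (Fcl m b a R) a R

/-! ### The end -/

/-- **(LK1)** Dimension one, without frames. From (GW): fans are not in balls, so one row is
full (`rows_thm` for `m = 1`), against the tail. -/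
def LK1Stmt : Prop := LKS 1 1

/-- **(ENDL)** Visible planks, with labels inside the planks. -/
def ENDLStmt : Prop :=
  ∀ (c k : ℕ) (b₁ b : ℝ), 1 ≤ b₁ → 1 ≤ b → LKS c b₁ → LKS k b₁ → ∀ ε > 0,
    ∃ θ > 0, ∃ J₀ : ℕ, ∀ J ≥ J₀, ∀ (F : Fam (c + k) J) (κ : Type) (z : F.Ω → κ)
      (A B : κ → Fin (c + k) → Fin (c + k) → ℝ),
    (∀ y i j, |A y i j| ≤ 1) → (∀ y i j, |B y i j| ≤ b) →
    (∀ y i l, ∑ j, B y i j * A y j l = if i = l then 1 else 0) →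
    Det F.p (fun ω => (F.l ω, F.Z ω)) z → F.Tm (θ * J) →
    ∀ P : ℕ, P ≤ J →
    ∃ B' : Lbl F ((c + k : ℕ) * b₁ * b), B'.cost ≤ CH F.p (F.X J) F.W + ε * J +
      CH F.p z (fun ω => (F.X J ω, F.W ω)) +
      CH F.p (fun ω => fl P (prj (A (z ω)) (Fin.castAdd k) (F.x ω))) (fun ω => (z ω, F.W ω)) +
      c * (((J : ℝ) - P) * Real.log 2)

end Pool.LK
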