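import Pool.Agent.H13.EG.Engine
import Pool.Agent.H69.LK.GWL
import Pool.Agent.H79.LK.Npc
import Pool.Agent.H1.LK.MIXL
import Pool.Agent.H1.LK.TRVL
import Pool.Agent.H34.LK.WINL
import Pool.Agent.H74.LK.UPR
import Pool.Agent.H74.LK.UMX
import Pool.Agent.H67.LK.AEXL
import Pool.Agent.H53.LK.Rexl
import Pool.Agent.H87.LK.TUBL

/-!
# The label form of KP 2
-/

set_option autoImplicit false

namespace Pool.LK

open Pool.KA Pool.STK Pool.KSAT Pool.K2S Pool.PB Pool.Agent.H1.LK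

/-- A claim of the class is realised. -/
theorem clg_real {m : ℕ} {S : FCl m}
    (hex : ∀ τ > 0, ∀ J₀ : ℕ, ∃ J ≥ J₀, ∃ F : Fam m J, S.T τ J F) {Φ : Stat m}
    (hc : Clg S Φ) : ∃ (J : ℕ) (F : Fam m J) (A : F.Ω → Prop), Φ J F A := by
  obtain ⟨c, hc0, J₁, h⟩ := Clg.win hc 1 one_pos
  obtain ⟨J, hJ, F, hF⟩ := hex c hc0 J₁
  have hp := F.isLaw
  obtain ⟨A, -, -, hA⟩ := h J hJ F (fun _ => True) ⟨hF, by
    have h1 : Pe F.p (fun _ => True) = 1 := by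
      rw [Pe_eq]
      simp [hp.sum_one]
    rw [h1, Real.exp_le_one_iff]
    have : 0 ≤ c * J := by positivity
    linarith⟩
  exact ⟨J, F, A, hA⟩

/-- **The label form of `K'(2)`.** -/
theorem lks_two {b : ℝ} (hb : 8 ≤ b) : LKS 2 b := by
  by_contra hcon
  have hb1 : 1 ≤ b := by linarith
  obtain ⟨a, ha, hR⟩ := aexl_thm cndl_thm trvl_thm 2 b hb1 hcon
  obtain ⟨R, hR0, -, hU, hL⟩ := hR a ha le_rfl
  obtain ⟨J, F, A, h⟩ := clg_real (rexl mixl_thm trvl_thm (upr_thm mixl_thm trvl_thm)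
    (umx_thm mixl_thm trvl_thm) 2 b a R hb1 ha hR0 hU hL)
    (Pool.K2S.G.engine ha hR0 (gwl_thm tubl_thm trcl_thm 2 b a R hb1 ha.le hR0 hU)
      (npc_thm hb ha.le hR0))
  exact h

end Pool.LK
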